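import Mathlib

set_option autoImplicit false

namespace Pool.Agent.Results.MP_f804be_nt.RMinimalBases

open Finset

/-- `n` lies in the `h`-fold sumset `hA`: it is a sum of `h` elements of `A`, repetitions
allowed. -/
def InSumset (A : Set ℕ) (h n : ℕ) : Prop :=
  ∃ f : Fin h → ℕ, (∀ i, f i ∈ A) ∧ ∑ i, f i = n

/-- `A` is an asymptotic basis of order `h`: only finitely many natural numbers are not in `hA`. -/
def IsAsymptoticBasis (h : ℕ) (A : Set ℕ) : Prop :=
  {n : ℕ | ¬ InSumset A h n}.Finite

/-- `A` is an `r`-minimal asymptotic basis of order `h`: for every `S ⊆ A`, the set `A \ S` is an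
asymptotic basis of order `h` if and only if `|S| < r` (so `S` is finite with fewer than `r`
elements). -/
def IsRMinimal (r h : ℕ) (A : Set ℕ) : Prop :=
  ∀ S : Set ℕ, S ⊆ A → (IsAsymptoticBasis h (A \ S) ↔ S.encard < (r : ℕ∞))

/-- multiset form of `InSumset` -/
def SumOf (A : Set ℕ) (h n : ℕ) : Prop :=
  ∃ s : Multiset ℕ, s.card = h ∧ (∀ x ∈ s, x ∈ A) ∧ s.sum = n

lemma inSumset_iff (A : Set ℕ) (h n : ℕ) : InSumset A h n ↔ SumOf A h n := by
  constructor
  · rintro ⟨f, hf, hsum⟩
    refine ⟨Finset.univ.val.map f, by simp, ?_, hsum⟩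
    intro x hx
    rw [Multiset.mem_map] at hx
    obtain ⟨i, -, rfl⟩ := hx
    exact hf i
  · rintro ⟨s, hs1, hs2, hs3⟩
    induction s using Quotient.inductionOn with
    | _ l =>
      have hl : l.length = h := by simpa using hs1
      subst hl
      refine ⟨fun i => l.get i, fun i => hs2 _ (by simp), ?_⟩
      have h1 : l.sum = n := by simpa using hs3
      rw [← h1, ← List.sum_ofFn]
      congr 1
      exact List.ofFn_get l

/-! ### The parameters of one block.  The order is `h = g + 2`. -/

/-- the length parameter -/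
def W (g m : ℕ) : ℕ := (g + 2) * (m + 1) + 1

/-- the position parameter -/
def P (g m : ℕ) : ℕ := (g + 2) * W g m + 2

/-- the special number of the block -/
def nx (g m : ℕ) : ℕ := (2 * g + 3) * P g m

/-- the generic part of the block -/
def Base (g m : ℕ) : Set ℕ :=
  {x | (m + 1 ≤ x ∧ x ≤ W g m + m + 2) ∨ x = P g m ∨
    (P g m + m + 1 ≤ x ∧ x ≤ P g m + W g m) ∨
    ((g + 2) * P g m + 1 ≤ x ∧ x + m + 1 ≤ (g + 2) * P g m + W g m)}

/-- the special part of the block -/
def Extra (g m : ℕ) (S : Finset ℕ) : Set ℕ := {x | ∃ s ∈ S, x + s = (g + 3) * P g m}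

lemma interval_sum (a b c N : ℕ) (hab : a ≤ b) (h1 : c * a ≤ N) (h2 : N ≤ c * b) :
    ∃ T : Multiset ℕ, T.card = c ∧ (∀ x ∈ T, a ≤ x ∧ x ≤ b) ∧ T.sum = N := by
  induction c generalizing N with
  | zero =>
    refine ⟨0, by simp, by simp, ?_⟩
    have : N = 0 := by omega
    simp [this]
  | succ c ih =>
    have e1 : (c + 1) * a = c * a + a := by ring
    have e2 : (c + 1) * b = c * b + b := by ring
    rw [e1] at h1
    rw [e2] at h2
    have e3 : c * a ≤ c * b := Nat.mul_le_mul_left c hab
    by_cases hx : b ≤ N - c * a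
    · obtain ⟨T, hT1, hT2, hT3⟩ := ih (N - b) (by omega) (by omega)
      refine ⟨b ::ₘ T, by simp [hT1], ?_, ?_⟩
      · intro x hx
        rcases Multiset.mem_cons.1 hx with rfl | hx
        · exact ⟨hab, le_rfl⟩
        · exact hT2 x hx
      · rw [Multiset.sum_cons, hT3]
        omega
    · obtain ⟨T, hT1, hT2, hT3⟩ := ih (c * a) le_rfl e3
      refine ⟨(N - c * a) ::ₘ T, by simp [hT1], ?_, ?_⟩
      · intro x hx
        rcases Multiset.mem_cons.1 hx with rfl | hx
        · constructor <;> omega
        · exact hT2 x hx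
      · rw [Multiset.sum_cons, hT3]
        omega

/-- `j` elements from the second part and `c ≥ 1` elements from the first part. -/
lemma cover_type (g m j c N : ℕ) (hc : 1 ≤ c) (hjc : j + c ≤ g + 2)
    (h1 : j * P g m + c * (m + 1) ≤ N) (h2 : N ≤ j * (P g m + W g m) + c * (W g m + m + 2)) :
    ∃ T : Multiset ℕ, T.card = j + c ∧ (∀ x ∈ T, x ∈ Base g m) ∧ T.sum = N := by
  have hw : W g m = (g + 2) * (m + 1) + 1 := rfl
  have hp : P g m = (g + 2) * W g m + 2 := rfl
  have hwm : (j + c) * (m + 1) ≤ (g + 2) * (m + 1) := Nat.mul_le_mul_right _ hjc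
  have ewm : (j + c) * (m + 1) = j * (m + 1) + c * (m + 1) := by ring
  have hm1 : m + 1 ≤ W g m := by
    rw [hw]
    nlinarith
  have hcL : W g m + m + 2 ≤ c * (W g m + m + 2) := Nat.le_mul_of_pos_left _ hc
  have e1 : j * (P g m + W g m) = j * P g m + j * W g m := by ring
  have e2 : j * (P g m + m + 1) = j * P g m + j * (m + 1) := by ring
  have e3 : c * (m + 1) ≤ c * (W g m + m + 2) := Nat.mul_le_mul_left c (by omega)
  have e4 : j * (m + 1) ≤ j * W g m := Nat.mul_le_mul_left j hm1
  by_cases hA : N ≤ j * P g m + c * (W g m + m + 2)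
  · obtain ⟨T, hT1, hT2, hT3⟩ := interval_sum (m + 1) (W g m + m + 2) c (N - j * P g m)
      (by omega) (by omega) (by omega)
    refine ⟨Multiset.replicate j (P g m) + T, by simp [hT1], ?_, ?_⟩
    · intro x hx
      rcases Multiset.mem_add.1 hx with hx | hx
      · rw [Multiset.eq_of_mem_replicate hx]
        exact Or.inr (Or.inl rfl)
      · exact Or.inl (hT2 x hx)
    · rw [Multiset.sum_add, Multiset.sum_replicate, hT3, smul_eq_mul]
      omega
  · by_cases hB : N ≤ j * P g m + j * (m + 1) + c * (W g m + m + 2)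
    · obtain ⟨T, hT1, hT2, hT3⟩ := interval_sum (m + 1) (W g m + m + 2) c
        (N - j * P g m - j * (m + 1)) (by omega) (by omega) (by omega)
      refine ⟨Multiset.replicate j (P g m + m + 1) + T, by simp [hT1], ?_, ?_⟩
      · intro x hx
        rcases Multiset.mem_add.1 hx with hx | hx
        · rw [Multiset.eq_of_mem_replicate hx]
          exact Or.inr (Or.inr (Or.inl ⟨by omega, by omega⟩))
        · exact Or.inl (hT2 x hx)
      · rw [Multiset.sum_add, Multiset.sum_replicate, hT3, smul_eq_mul]
        omega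
    · obtain ⟨T, hT1, hT2, hT3⟩ := interval_sum (P g m + m + 1) (P g m + W g m) j
        (N - c * (W g m + m + 2)) (by omega) (by omega) (by omega)
      refine ⟨T + Multiset.replicate c (W g m + m + 2), by simp [hT1], ?_, ?_⟩
      · intro x hx
        rcases Multiset.mem_add.1 hx with hx | hx
        · exact Or.inr (Or.inr (Or.inl (hT2 x hx)))
        · rw [Multiset.eq_of_mem_replicate hx]
          exact Or.inl ⟨by omega, by omega⟩
      · rw [Multiset.sum_add, Multiset.sum_replicate, hT3, smul_eq_mul]
        omega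

/-- everything from `h (m + 1)` up to `h P + m` is covered. -/
lemma cover_low (g m j N : ℕ) (hj : j ≤ g + 1) (h1 : (g + 2) * (m + 1) ≤ N)
    (h2 : N + 2 ≤ (j + 1) * P g m + (g + 2 - j) * (m + 2)) :
    ∃ T : Multiset ℕ, T.card = g + 2 ∧ (∀ x ∈ T, x ∈ Base g m) ∧ T.sum = N := by
  have hw : W g m = (g + 2) * (m + 1) + 1 := rfl
  have hp : P g m = (g + 2) * W g m + 2 := rfl
  induction j generalizing N with
  | zero =>
    obtain ⟨T, hT⟩ := cover_type g m 0 (g + 2) N (by omega) (by omega) (by omega) (by
      have : (g + 2) * (W g m + m + 2) = (g + 2) * W g m + (g + 2) * (m + 2) := by ring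
      simp only [zero_add, one_mul, Nat.sub_zero] at h2
      omega)
    exact ⟨T, by simpa using hT⟩
  | succ j ih =>
    by_cases hN : N + 2 ≤ (j + 1) * P g m + (g + 2 - j) * (m + 2)
    · exact ih N (by omega) h1 hN
    · obtain ⟨c, hc⟩ : ∃ c, g + 2 = j + 1 + (c + 1) := ⟨g - j, by omega⟩
      have e1 : g + 2 - j = c + 2 := by omega
      have e2 : g + 2 - (j + 1) = c + 1 := by omega
      rw [e1] at hN
      rw [e2] at h2
      have e3 : (c + 2) * (m + 2) = (c + 1) * (m + 1) + m + c + 3 := by ring
      have e4 : (j + 1 + 1) * P g m = (j + 1) * P g m + P g m := by ring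
      have e5 : (j + 1) * (P g m + W g m) = (j + 1) * P g m + (j + 1) * W g m := by ring
      have e6 : (c + 1) * (W g m + m + 2) = (c + 1) * W g m + (c + 1) * (m + 2) := by ring
      have e7 : (g + 2) * W g m = (j + 1) * W g m + (c + 1) * W g m := by rw [hc]; ring
      obtain ⟨T, hT⟩ := cover_type g m (j + 1) (c + 1) N (by omega) (by omega) (by omega) (by omega)
      refine ⟨T, ?_, hT.2⟩
      rw [hT.1, hc]

/-- one element of the last part, `j` of the second, `c ≥ 1` of the first -/
lemma cover_type' (g m j c N : ℕ) (hc : 1 ≤ c) (hjc : j + c + 1 = g + 2)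
    (h1 : (g + 2) * P g m + 1 + j * P g m + c * (m + 1) ≤ N)
    (h2 : N + m + 1 ≤ (g + 2) * P g m + W g m + j * (P g m + W g m) + c * (W g m + m + 2)) :
    ∃ T : Multiset ℕ, T.card = g + 2 ∧ (∀ x ∈ T, x ∈ Base g m) ∧ T.sum = N := by
  have hw : W g m = (g + 2) * (m + 1) + 1 := rfl
  have hm1 : m + 2 ≤ W g m := by
    rw [hw]
    nlinarith
  have e1 : j * P g m + c * (m + 1) ≤ j * (P g m + W g m) + c * (W g m + m + 2) :=
    Nat.add_le_add (Nat.mul_le_mul_left j (by omega)) (Nat.mul_le_mul_left c (by omega))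
  by_cases hA : N ≤ (g + 2) * P g m + 1 + (j * (P g m + W g m) + c * (W g m + m + 2))
  · obtain ⟨T, hT1, hT2, hT3⟩ := cover_type g m j c (N - ((g + 2) * P g m + 1)) hc (by omega)
      (by omega) (by omega)
    refine ⟨((g + 2) * P g m + 1) ::ₘ T, by simp [hT1]; omega, ?_, ?_⟩
    · intro x hx
      rcases Multiset.mem_cons.1 hx with rfl | hx
      · exact Or.inr (Or.inr (Or.inr ⟨by omega, by omega⟩))
      · exact hT2 x hx
    · rw [Multiset.sum_cons, hT3]
      omega
  · obtain ⟨T, hT1, hT2, hT3⟩ := cover_type g m j c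
      (j * (P g m + W g m) + c * (W g m + m + 2)) hc (by omega) (by omega) (by omega)
    refine ⟨(N - (j * (P g m + W g m) + c * (W g m + m + 2))) ::ₘ T, by simp [hT1]; omega, ?_, ?_⟩
    · intro x hx
      rcases Multiset.mem_cons.1 hx with rfl | hx
      · exact Or.inr (Or.inr (Or.inr ⟨by omega, by omega⟩))
      · exact hT2 x hx
    · rw [Multiset.sum_cons, hT3]
      omega

/-- everything from `h P + 1 + (h - 1) (m + 1)` up to `nx - 1` is covered. -/
lemma cover_high (g m j N : ℕ) (hj : j ≤ g) (h1 : (g + 2) * P g m + 1 + (g + 1) * (m + 1) ≤ N)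
    (h2 : N + m + 3 ≤ (g + 3 + j) * P g m + (g + 1 - j) * (m + 2)) :
    ∃ T : Multiset ℕ, T.card = g + 2 ∧ (∀ x ∈ T, x ∈ Base g m) ∧ T.sum = N := by
  have hw : W g m = (g + 2) * (m + 1) + 1 := rfl
  have hp : P g m = (g + 2) * W g m + 2 := rfl
  induction j generalizing N with
  | zero =>
    have e1 : (g + 1) * (W g m + m + 2) = (g + 1) * W g m + (g + 1) * (m + 2) := by ring
    have e2 : (g + 3) * P g m = (g + 2) * P g m + P g m := by ring
    have e3 : (g + 2) * W g m = (g + 1) * W g m + W g m := by ring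
    simp only [add_zero, Nat.sub_zero] at h2
    exact cover_type' g m 0 (g + 1) N (by omega) (by omega) (by omega) (by omega)
  | succ j ih =>
    by_cases hN : N + m + 3 ≤ (g + 3 + j) * P g m + (g + 1 - j) * (m + 2)
    · exact ih N (by omega) h1 hN
    · obtain ⟨c, hc⟩ : ∃ c, g + 1 = j + 1 + (c + 1) ∨ (c = 0 ∧ g = j) := by
        rcases Nat.lt_or_ge j g with h | h
        · exact ⟨g - j - 1, Or.inl (by omega)⟩
        · exact ⟨0, Or.inr ⟨rfl, by omega⟩⟩
      rcases hc with hc | ⟨-, hc⟩
      · have e1 : g + 1 - j = c + 2 := by omega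
        have e2 : g + 1 - (j + 1) = c + 1 := by omega
        rw [e1] at hN
        rw [e2] at h2
        have e3 : (c + 2) * (m + 2) = (c + 1) * (m + 1) + m + c + 3 := by ring
        have e4 : (g + 3 + (j + 1)) * P g m = (g + 3 + j) * P g m + P g m := by ring
        have e5 : (j + 1) * (P g m + W g m) = (j + 1) * P g m + (j + 1) * W g m := by ring
        have e6 : (c + 1) * (W g m + m + 2) = (c + 1) * W g m + (c + 1) * (m + 2) := by ring
        have e7 : (g + 2) * W g m = (j + 1) * W g m + (c + 1) * W g m + W g m := by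
          rw [show g + 2 = j + 1 + (c + 1) + 1 by omega]; ring
        have e8 : (g + 3 + j) * P g m = (g + 2) * P g m + (j + 1) * P g m := by ring
        exact cover_type' g m (j + 1) (c + 1) N (by omega) (by omega) (by omega) (by omega)
      · omega

/-- the complete covering statement of one block, up to `nx + (h - 1)(m + 1)`. -/
lemma cover_block (g m N : ℕ) (h1 : (g + 2) * (m + 1) ≤ N)
    (h2 : N ≤ nx g m + (g + 1) * (m + 1)) (hne : N ≠ nx g m) :
    ∃ T : Multiset ℕ, T.card = g + 2 ∧ (∀ x ∈ T, x ∈ Base g m) ∧ T.sum = N := by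
  have hw : W g m = (g + 2) * (m + 1) + 1 := rfl
  have hp : P g m = (g + 2) * W g m + 2 := rfl
  have hn : nx g m = (2 * g + 3) * P g m := rfl
  have ea : (g + 2) * (m + 1) = (g + 1) * (m + 1) + m + 1 := by ring
  have eb : (g + 2) * P g m = (g + 1) * P g m + P g m := by ring
  have ec : (2 * g + 3) * P g m = (g + 2) * P g m + (g + 1) * P g m := by ring
  by_cases c1 : N ≤ (g + 2) * P g m + m
  · refine cover_low g m (g + 1) N le_rfl h1 ?_
    have : g + 2 - (g + 1) = 1 := by omega
    rw [this]
    have e : (g + 1 + 1) * P g m = (g + 2) * P g m := by ring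
    omega
  by_cases c2 : N ≤ (g + 2) * P g m + W g m
  · refine ⟨(P g m + (N - (g + 2) * P g m)) ::ₘ Multiset.replicate (g + 1) (P g m), by simp, ?_, ?_⟩
    · intro x hx
      rcases Multiset.mem_cons.1 hx with rfl | hx
      · exact Or.inr (Or.inr (Or.inl ⟨by omega, by omega⟩))
      · rw [Multiset.eq_of_mem_replicate hx]
        exact Or.inr (Or.inl rfl)
    · rw [Multiset.sum_cons, Multiset.sum_replicate, smul_eq_mul]
      omega
  by_cases c3 : N + 1 ≤ nx g m
  · refine cover_high g m g N le_rfl (by omega) ?_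
    have : g + 1 - g = 1 := by omega
    rw [this]
    have e : (g + 3 + g) * P g m = (2 * g + 3) * P g m := by ring
    omega
  · refine ⟨(N - (g + 1) * P g m) ::ₘ Multiset.replicate (g + 1) (P g m), by simp, ?_, ?_⟩
    · intro x hx
      rcases Multiset.mem_cons.1 hx with rfl | hx
      · exact Or.inr (Or.inr (Or.inr ⟨by omega, by omega⟩))
      · rw [Multiset.eq_of_mem_replicate hx]
        exact Or.inr (Or.inl rfl)
    · rw [Multiset.sum_cons, Multiset.sum_replicate, smul_eq_mul]
      omega

/-- splitting a multiset into small and big elements -/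
lemma split_sum (L p w : ℕ) (T : Multiset ℕ) (hT : ∀ x ∈ T, x ≤ L ∨ (p ≤ x ∧ x ≤ p + w)) :
    ∃ t, t ≤ T.card ∧ t * p ≤ T.sum ∧ T.sum ≤ t * (p + w) + (T.card - t) * L := by
  induction T using Multiset.induction_on with
  | empty => exact ⟨0, by simp⟩
  | cons a T ih =>
    obtain ⟨t, h1, h2, h3⟩ := ih (fun x hx => hT x (Multiset.mem_cons_of_mem hx))
    rw [Multiset.sum_cons, Multiset.card_cons]
    rcases hT a (Multiset.mem_cons_self a T) with h | h
    · refine ⟨t, by omega, by omega, ?_⟩
      have : T.card + 1 - t = T.card - t + 1 := by omega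
      rw [this, add_mul (T.card - t) 1 L]
      omega
    · refine ⟨t + 1, by omega, ?_, ?_⟩
      · rw [add_mul]
        omega
      · have : T.card + 1 - (t + 1) = T.card - t := by omega
        rw [this, add_mul t 1 (p + w)]
        omega

/-- if all elements are at least `p`, with a gap after `p`, and the sum is close to minimal, then
the sum is minimal. -/
lemma rigid_sum (p m : ℕ) (T : Multiset ℕ) (hT : ∀ x ∈ T, x = p ∨ p + m + 1 ≤ x) :
    T.card * p ≤ T.sum ∧ (T.sum ≤ T.card * p + m → T.sum = T.card * p) := by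
  induction T using Multiset.induction_on with
  | empty => simp
  | cons a T ih =>
    obtain ⟨h1, h2⟩ := ih (fun x hx => hT x (Multiset.mem_cons_of_mem hx))
    rw [Multiset.sum_cons, Multiset.card_cons, add_mul]
    rcases hT a (Multiset.mem_cons_self a T) with h | h
    · constructor
      · omega
      · intro h3
        have := h2 (by omega)
        omega
    · constructor
      · omega
      · intro h3
        omega

/-- the special number `nx` is not a sum of `h` elements of the block and of old elements outside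
`S`. -/
lemma no_rep (g m : ℕ) (S : Finset ℕ) (hS : ∀ s ∈ S, s ≤ m) (T : Multiset ℕ)
    (hc : T.card = g + 2)
    (hT : ∀ x ∈ T, (x ≤ m ∧ x ∉ S) ∨ x ∈ Base g m ∨ x ∈ Extra g m S) : T.sum ≠ nx g m := by
  have hw : W g m = (g + 2) * (m + 1) + 1 := rfl
  have hp : P g m = (g + 2) * W g m + 2 := rfl
  have hn : nx g m = (2 * g + 3) * P g m := rfl
  have hwm : 2 * (m + 1) < W g m := by
    rw [hw]
    nlinarith
  have hwp : 2 * W g m + 2 ≤ P g m := by
    rw [hp]
    nlinarith
  have ea : (2 * g + 3) * P g m = g * P g m + (g + 3) * P g m := by ring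
  have eb : (g + 3) * P g m = (g + 2) * P g m + P g m := by ring
  have ec : (g + 2) * P g m = (g + 1) * P g m + P g m := by ring
  have ed : (g + 1) * P g m = g * P g m + P g m := by ring
  have ee : (g + 2) * W g m = g * W g m + 2 * W g m := by ring
  intro hsum
  by_cases hE : ∃ x ∈ T, x ∈ Extra g m S
  · obtain ⟨b, hb, s, hs, hbs⟩ := hE
    obtain ⟨U, rfl⟩ := Multiset.exists_cons_of_mem hb
    rw [Multiset.sum_cons] at hsum
    rw [Multiset.card_cons] at hc
    have hsm := hS s hs
    have hUsum : U.sum = g * P g m + s := by omega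
    have hUc : U.card = g + 1 := by omega
    -- membership of the remaining elements
    have hU : ∀ x ∈ U, (x ≤ W g m + m + 2 ∧ x ∉ S) ∨
        ((x = P g m ∨ P g m + m + 1 ≤ x) ∧ x ≤ P g m + W g m) := by
      intro x hx
      have hxs : x ≤ U.sum := Multiset.le_sum_of_mem hx
      rcases hT x (Multiset.mem_cons_of_mem hx) with h | h | ⟨s', hs', h⟩
      · exact Or.inl ⟨by omega, h.2⟩
      · rcases h with h | h | h | h
        · refine Or.inl ⟨h.2, fun h' => ?_⟩
          have := hS x h'
          omega
        · exact Or.inr ⟨Or.inl h, by omega⟩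
        · exact Or.inr ⟨Or.inr h.1, h.2⟩
        · omega
      · have := hS s' hs'
        omega
    obtain ⟨t, ht1, ht2, ht3⟩ := split_sum (W g m + m + 2) (P g m) (W g m) U (by
      intro x hx
      rcases hU x hx with h | h
      · exact Or.inl h.1
      · exact Or.inr ⟨by omega, h.2⟩)
    -- number of big elements, exactly
    set B := U.filter (fun x => ¬ x ≤ W g m + m + 2) with hB
    set L := U.filter (fun x => x ≤ W g m + m + 2) with hL
    have hLB : L + B = U := Multiset.filter_add_not _ U
    have hBr := rigid_sum (P g m) m B (by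
      intro x hx
      rw [hB, Multiset.mem_filter] at hx
      rcases hU x hx.1 with h | h
      · exact absurd h.1 hx.2
      · exact h.1)
    have hcard : L.card + B.card = g + 1 := by rw [← Multiset.card_add, hLB, hUc]
    have hsumLB : L.sum + B.sum = g * P g m + s := by rw [← Multiset.sum_add, hLB, hUsum]
    have hLsum : L.sum ≤ L.card * (W g m + m + 2) := by
      have := Multiset.sum_le_card_nsmul L (W g m + m + 2) (by
        intro x hx
        rw [hL, Multiset.mem_filter] at hx
        exact hx.2)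
      simpa using this
    have hBsum : B.sum ≤ B.card * (P g m + W g m) := by
      have := Multiset.sum_le_card_nsmul B (P g m + W g m) (by
        intro x hx
        rw [hB, Multiset.mem_filter] at hx
        rcases hU x hx.1 with h | h
        · exact absurd h.1 hx.2
        · exact h.2)
      simpa using this
    rcases Nat.lt_trichotomy B.card g with hBg | hBg | hBg
    · -- too few big elements
      obtain ⟨c, hcc⟩ : ∃ c, g = B.card + (c + 1) := ⟨g - B.card - 1, by omega⟩
      have hLc : L.card = c + 2 := by omega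
      rw [hLc] at hLsum
      have e1 : g * P g m = B.card * P g m + (c + 1) * P g m := by
        rw [← add_mul, ← hcc]
      have e2 : B.card * (P g m + W g m) = B.card * P g m + B.card * W g m := by ring
      have e3 : g * W g m = B.card * W g m + (c + 1) * W g m := by
        rw [← add_mul, ← hcc]
      have e4 : (c + 2) * (W g m + m + 2) = (c + 1) * W g m + W g m + c * (m + 2) + 2 * m + 4 := by
        ring
      have e5 : (c + 1) * P g m = P g m + c * P g m := by ring
      have e6 : c * (m + 2) ≤ c * P g m := Nat.mul_le_mul_left c (by omega)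
      omega
    · -- exactly `g = h - 2` big elements
      have hLc : L.card = 1 := by omega
      rw [hBg] at hBr
      have h1 := hBr.2 (by omega)
      obtain ⟨l, hl⟩ := Multiset.card_eq_one.1 hLc
      have hls : l = s := by
        rw [hl, Multiset.sum_singleton] at hsumLB
        omega
      have hlL : l ∈ L := by rw [hl]; exact Multiset.mem_singleton_self l
      rw [hL, Multiset.mem_filter] at hlL
      rcases hU l hlL.1 with h | h
      · exact h.2 (hls ▸ hs)
      · omega
    · have : (g + 1) * P g m ≤ B.card * P g m := Nat.mul_le_mul_right _ hBg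
      omega
  · push Not at hE
    by_cases hB2 : ∃ x ∈ T, (g + 2) * P g m + 1 ≤ x ∧ x + m + 1 ≤ (g + 2) * P g m + W g m
    · obtain ⟨x, hx, hx1, hx2⟩ := hB2
      obtain ⟨U, rfl⟩ := Multiset.exists_cons_of_mem hx
      rw [Multiset.sum_cons] at hsum
      rw [Multiset.card_cons] at hc
      have hUc : U.card = g + 1 := by omega
      obtain ⟨t, ht1, ht2, ht3⟩ := split_sum (W g m + m + 2) (P g m) (W g m) U (by
        intro y hy
        have hys : y ≤ U.sum := Multiset.le_sum_of_mem hy
        rcases hT y (Multiset.mem_cons_of_mem hy) with h | h | h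
        · exact Or.inl (by omega)
        · rcases h with h | h | h | h
          · exact Or.inl h.2
          · exact Or.inr ⟨by omega, by omega⟩
          · exact Or.inr ⟨by omega, h.2⟩
          · omega
        · exact absurd h (hE y (Multiset.mem_cons_of_mem hy)))
      rw [hUc] at ht1 ht3
      have ht4 : t ≤ g := by
        by_contra hcon
        have : t = g + 1 := by omega
        subst this
        omega
      obtain ⟨c, hcc⟩ : ∃ c, g = t + c := ⟨g - t, by omega⟩
      have e0 : g + 1 - t = c + 1 := by omega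
      rw [e0] at ht3
      have e1 : g * P g m = t * P g m + c * P g m := by
        rw [← add_mul, ← hcc]
      have e2 : t * (P g m + W g m) = t * P g m + t * W g m := by ring
      have e3 : g * W g m = t * W g m + c * W g m := by
        rw [← add_mul, ← hcc]
      have e4 : (c + 1) * (W g m + m + 2) = c * (W g m + m + 2) + W g m + m + 2 := by ring
      have e5 : c * (W g m + m + 2) ≤ c * P g m := Nat.mul_le_mul_left c (by omega)
      have e6 : c * W g m ≤ c * (W g m + m + 2) := Nat.mul_le_mul_left c (by omega)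
      omega
    · push Not at hB2
      have h1 : T.sum ≤ T.card * (P g m + W g m) := by
        have := Multiset.sum_le_card_nsmul T (P g m + W g m) (by
          intro y hy
          rcases hT y hy with h | h | h
          · omega
          · rcases h with h | h | h | h
            · omega
            · omega
            · exact h.2
            · have := hB2 y hy h.1
              omega
          · exact absurd h (hE y hy))
        simpa using this
      rw [hc] at h1
      have e2 : (g + 2) * (P g m + W g m) = (g + 2) * P g m + (g + 2) * W g m := by ring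
      omega

/-! ### The construction -/

/-- the block boundaries -/
def M (r g : ℕ) : ℕ → ℕ
  | 0 => r
  | k + 1 => nx g (M r g k)

/-- an enumeration of the finite sets of natural numbers in which each one occurs infinitely
often -/
def F (k : ℕ) : Finset ℕ := (Denumerable.eqv (Finset ℕ)).symm k.unpair.1

open Classical in
/-- the set treated in a block: `F k` if it is an `r`-element subset of the set constructed so far,
and a default choice otherwise -/
noncomputable def sel (r : ℕ) (B : Set ℕ) (k : ℕ) : Finset ℕ :=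
  if (F k).card = r ∧ (↑(F k) : Set ℕ) ⊆ B then F k else range r

/-- the finite sets constructed step by step -/
noncomputable def Ak (r g : ℕ) : ℕ → Set ℕ
  | 0 => {x | x < r}
  | k + 1 => Ak r g k ∪ (Base g (M r g k) ∪ Extra g (M r g k) (sel r (Ak r g k) k))

/-- the basis -/
def A (r g : ℕ) : Set ℕ := {x | ∃ k, x ∈ Ak r g k}

lemma F_infinite (S : Finset ℕ) (K : ℕ) : ∃ k, K ≤ k ∧ F k = S := by
  refine ⟨Nat.pair (Denumerable.eqv (Finset ℕ) S) K, Nat.right_le_pair _ _, ?_⟩
  simp only [F, Nat.unpair_pair, Equiv.symm_apply_apply]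

lemma nx_gt (g m : ℕ) : m < nx g m := by
  have hw : W g m = (g + 2) * (m + 1) + 1 := rfl
  have hp : P g m = (g + 2) * W g m + 2 := rfl
  have hn : nx g m = (2 * g + 3) * P g m := rfl
  have h1 : m < W g m := by
    rw [hw]
    nlinarith
  have h2 : W g m < P g m := by
    rw [hp]
    nlinarith
  have h3 : P g m ≤ nx g m := by
    rw [hn]
    exact Nat.le_mul_of_pos_left _ (by omega)
  omega

lemma M_lt (r g k : ℕ) : M r g k < M r g (k + 1) := nx_gt g (M r g k)

lemma M_strictMono (r g : ℕ) : StrictMono (M r g) := strictMono_nat_of_lt_succ (M_lt r g)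

lemma le_M (r g k : ℕ) : k ≤ M r g k := (M_strictMono r g).id_le k

lemma base_bounds (g m x : ℕ) (hx : x ∈ Base g m) : m < x ∧ x ≤ nx g m := by
  have hw : W g m = (g + 2) * (m + 1) + 1 := rfl
  have hp : P g m = (g + 2) * W g m + 2 := rfl
  have hn : nx g m = (2 * g + 3) * P g m := rfl
  have hwm : 2 * (m + 1) < W g m := by
    rw [hw]
    nlinarith
  have hwp : 2 * W g m + 2 ≤ P g m := by
    rw [hp]
    nlinarith
  have ea : (2 * g + 3) * P g m = (g + 1) * P g m + (g + 2) * P g m := by ring
  have eb : (g + 1) * P g m = g * P g m + P g m := by ring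
  have ec : (g + 2) * P g m = (g + 1) * P g m + P g m := by ring
  rcases hx with h | h | h | h <;> constructor <;> omega

lemma extra_bounds (g m x : ℕ) (S : Finset ℕ) (hS : ∀ s ∈ S, s ≤ m) (hx : x ∈ Extra g m S) :
    m < x ∧ x ≤ nx g m := by
  have hw : W g m = (g + 2) * (m + 1) + 1 := rfl
  have hp : P g m = (g + 2) * W g m + 2 := rfl
  have hn : nx g m = (2 * g + 3) * P g m := rfl
  have hwm : 2 * (m + 1) < W g m := by
    rw [hw]
    nlinarith
  have hwp : 2 * W g m + 2 ≤ P g m := by
    rw [hp]
    nlinarith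
  have ea : (2 * g + 3) * P g m = g * P g m + (g + 3) * P g m := by ring
  have eb : (g + 3) * P g m = (g + 1) * P g m + P g m + P g m := by ring
  obtain ⟨s, hs, h⟩ := hx
  have := hS s hs
  constructor <;> omega

lemma sel_card (r : ℕ) (B : Set ℕ) (k : ℕ) : (sel r B k).card = r := by
  unfold sel
  split_ifs with h
  · exact h.1
  · simp

lemma sel_sub (r : ℕ) (B : Set ℕ) (k : ℕ) (hB : {x | x < r} ⊆ B) :
    (↑(sel r B k) : Set ℕ) ⊆ B := by
  unfold sel
  split_ifs with h
  · exact h.2
  · intro x hx
    apply hB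
    simpa using hx

lemma Ak_zero_sub (r g k : ℕ) : {x | x < r} ⊆ Ak r g k := by
  induction k with
  | zero => exact subset_rfl
  | succ k ih => exact ih.trans Set.subset_union_left

lemma Ak_le (r g k : ℕ) : ∀ x ∈ Ak r g k, x ≤ M r g k := by
  induction k with
  | zero => exact fun x hx => le_of_lt hx
  | succ k ih =>
    intro x hx
    rcases hx with h | h | h
    · exact (ih x h).trans (M_lt r g k).le
    · exact (base_bounds g _ x h).2
    · refine (extra_bounds g _ x _ ?_ h).2
      intro s hs
      exact ih s (sel_sub r _ k (Ak_zero_sub r g k) hs)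

lemma sel_le (r g k s : ℕ) (hs : s ∈ sel r (Ak r g k) k) : s ≤ M r g k :=
  Ak_le r g k s (sel_sub r _ k (Ak_zero_sub r g k) hs)

lemma Ak_mono (r g : ℕ) : Monotone (Ak r g) :=
  monotone_nat_of_le_succ fun _ => Set.subset_union_left

/-- an element of `A` below `M k` already lies in `Ak k`. -/
lemma mem_Ak_of_le (r g k x : ℕ) (hx : x ∈ A r g) (hle : x ≤ M r g k) : x ∈ Ak r g k := by
  obtain ⟨j, hj⟩ := hx
  rcases le_total j k with h | h
  · exact Ak_mono r g h hj
  · obtain ⟨d, rfl⟩ := Nat.exists_eq_add_of_le h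
    clear h
    induction d with
    | zero => exact hj
    | succ d ih =>
      apply ih
      have hM : M r g k ≤ M r g (k + d) := (M_strictMono r g).monotone (by omega)
      rcases hj with h | h | h
      · exact h
      · have := (base_bounds g (M r g (k + d)) x h).1
        omega
      · have := (extra_bounds g (M r g (k + d)) x _ (fun s hs => sel_le r g (k + d) s hs) h).1
        omega

lemma base_sub_A (r g k : ℕ) : Base g (M r g k) ⊆ A r g :=
  fun _ hx => ⟨k + 1, Or.inr (Or.inl hx)⟩

lemma extra_sub_A (r g k : ℕ) : Extra g (M r g k) (sel r (Ak r g k) k) ⊆ A r g :=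
  fun _ hx => ⟨k + 1, Or.inr (Or.inr hx)⟩

/-- all numbers in the `k`-th range apart from the special one are sums of `h` elements of `A`
exceeding `M k`. -/
lemma cover_stage (r g k N : ℕ) (h1 : (g + 2) * (M r g k + 1) ≤ N)
    (h2 : N < (g + 2) * (M r g (k + 1) + 1)) (hne : N ≠ M r g (k + 1)) :
    ∃ T : Multiset ℕ, T.card = g + 2 ∧ (∀ x ∈ T, x ∈ A r g ∧ M r g k < x) ∧ T.sum = N := by
  have hM : M r g (k + 1) = nx g (M r g k) := rfl
  by_cases hN : N ≤ nx g (M r g k) + (g + 1) * (M r g k + 1)
  · obtain ⟨T, hT1, hT2, hT3⟩ := cover_block g (M r g k) N h1 hN (hM ▸ hne)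
    exact ⟨T, hT1, fun x hx => ⟨base_sub_A r g k (hT2 x hx), (base_bounds g _ x (hT2 x hx)).1⟩,
      hT3⟩
  · -- one element of the next block and `h - 1` times `M k + 1`
    have hw : W g (M r g (k + 1)) = (g + 2) * (M r g (k + 1) + 1) + 1 := rfl
    refine ⟨(N - (g + 1) * (M r g k + 1)) ::ₘ Multiset.replicate (g + 1) (M r g k + 1), by simp,
      ?_, ?_⟩
    · intro x hx
      rcases Multiset.mem_cons.1 hx with rfl | hx
      · refine ⟨base_sub_A r g (k + 1) (Or.inl ⟨by omega, by omega⟩), ?_⟩
        have := M_lt r g k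
        omega
      · rw [Multiset.eq_of_mem_replicate hx]
        refine ⟨base_sub_A r g k (Or.inl ⟨le_rfl, by omega⟩), by omega⟩
    · rw [Multiset.sum_cons, Multiset.sum_replicate, smul_eq_mul]
      omega

/-- representation of the special number through an element `s` of the selected set -/
lemma special_rep (r g k s : ℕ) (hs : s ∈ sel r (Ak r g k) k) :
    ∃ b p : ℕ, b ∈ A r g ∧ p ∈ A r g ∧ M r g k < b ∧ M r g k < p ∧
      (b ::ₘ s ::ₘ Multiset.replicate g p).sum = M r g (k + 1) := by
  set m := M r g k with hm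
  have hsm : s ≤ m := sel_le r g k s hs
  have hw : W g m = (g + 2) * (m + 1) + 1 := rfl
  have hp : P g m = (g + 2) * W g m + 2 := rfl
  have hn : M r g (k + 1) = (2 * g + 3) * P g m := rfl
  have ea : (2 * g + 3) * P g m = g * P g m + (g + 3) * P g m := by ring
  have eb : (g + 3) * P g m = (g + 2) * P g m + P g m := by ring
  have hwm : 2 * (m + 1) < W g m := by
    rw [hw]
    nlinarith
  have hwp : 2 * W g m + 2 ≤ P g m := by
    rw [hp]
    nlinarith
  have hbE : (g + 3) * P g m - s ∈ Extra g m (sel r (Ak r g k) k) := ⟨s, hs, by omega⟩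
  refine ⟨(g + 3) * P g m - s, P g m, extra_sub_A r g k hbE, base_sub_A r g k (Or.inr (Or.inl rfl)),
    by omega, by omega, ?_⟩
  rw [Multiset.sum_cons, Multiset.sum_cons, Multiset.sum_replicate, smul_eq_mul]
  omega

/-- the special number has no representation avoiding the selected set -/
lemma special_no_rep (r g k : ℕ) (S : Set ℕ) (hS : (↑(sel r (Ak r g k) k) : Set ℕ) ⊆ S) :
    ¬ SumOf (A r g \ S) (g + 2) (M r g (k + 1)) := by
  rintro ⟨T, hT1, hT2, hT3⟩
  refine no_rep g (M r g k) (sel r (Ak r g k) k) (fun s hs => sel_le r g k s hs) T hT1 ?_ hT3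
  intro x hx
  have hxs : x ≤ M r g (k + 1) := hT3 ▸ Multiset.le_sum_of_mem hx
  have hxA := mem_Ak_of_le r g (k + 1) x (hT2 x hx).1 hxs
  rcases hxA with h | h | h
  · exact Or.inl ⟨Ak_le r g k x h, fun h' => (hT2 x hx).2 (hS h')⟩
  · exact Or.inr (Or.inl h)
  · exact Or.inr (Or.inr h)

/-- removing fewer than `r` elements -/
lemma removal_small (r g : ℕ) (S : Set ℕ) (hcard : S.encard < (r : ℕ∞)) :
    ∃ N₀, ∀ N, N₀ ≤ N → SumOf (A r g \ S) (g + 2) N := by
  have hfin : S.Finite := Set.finite_of_encard_le_coe hcard.le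
  obtain ⟨K, hK⟩ := hfin.bddAbove
  refine ⟨(g + 2) * (M r g K + 1), fun N hN => ?_⟩
  -- the range containing `N`
  obtain ⟨k, hKk, hk1, hk2⟩ : ∃ k, K ≤ k ∧ (g + 2) * (M r g k + 1) ≤ N ∧
      N < (g + 2) * (M r g (k + 1) + 1) := by
    by_contra hcon
    push Not at hcon
    have hall : ∀ k, K ≤ k → (g + 2) * (M r g k + 1) ≤ N := by
      intro k hk
      induction k, hk using Nat.le_induction with
      | base => exact hN
      | succ k hk ih => exact hcon k hk ih
    have h1 := hall (K + N) (by omega)
    have h2 := le_M r g (K + N)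
    nlinarith
  have hMK : K ≤ M r g k := hKk.trans (le_M r g k)
  have hbig : ∀ x, M r g k < x → x ∉ S := fun x hx hxS => by
    have := hK hxS
    omega
  by_cases hne : N = M r g (k + 1)
  · -- the special number
    have : ∃ s ∈ sel r (Ak r g k) k, s ∉ S := by
      by_contra hcon
      push Not at hcon
      have h1 : (↑(sel r (Ak r g k) k) : Set ℕ).encard ≤ S.encard := Set.encard_le_encard hcon
      rw [Set.encard_coe_eq_coe_finsetCard, sel_card] at h1
      exact absurd hcard (not_lt.2 h1)
    obtain ⟨s, hs, hsS⟩ := this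
    obtain ⟨b, p, hb, hp, hbm, hpm, hsum⟩ := special_rep r g k s hs
    refine ⟨b ::ₘ s ::ₘ Multiset.replicate g p, by simp, ?_, by rw [hsum, hne]⟩
    intro x hx
    rcases Multiset.mem_cons.1 hx with rfl | hx
    · exact ⟨hb, hbig _ hbm⟩
    · rcases Multiset.mem_cons.1 hx with rfl | hx
      · exact ⟨⟨k, sel_sub r _ k (Ak_zero_sub r g k) hs⟩, hsS⟩
      · rw [Multiset.eq_of_mem_replicate hx]
        exact ⟨hp, hbig _ hpm⟩
  · obtain ⟨T, hT1, hT2, hT3⟩ := cover_stage r g k N hk1 hk2 hne
    exact ⟨T, hT1, fun x hx => ⟨(hT2 x hx).1, hbig x (hT2 x hx).2⟩, hT3⟩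

/-- removing at least `r` elements -/
lemma removal_large (r g : ℕ) (S : Set ℕ) (hSA : S ⊆ A r g) (hcard : (r : ℕ∞) ≤ S.encard)
    (N₀ : ℕ) : ∃ N, N₀ ≤ N ∧ ¬ SumOf (A r g \ S) (g + 2) N := by
  obtain ⟨S', hS', hc⟩ := Set.exists_subset_encard_eq hcard
  have hfin : S'.Finite := Set.finite_of_encard_eq_coe hc
  obtain ⟨K, hK⟩ := hfin.bddAbove
  obtain ⟨k, hk, hF⟩ := F_infinite hfin.toFinset (max K N₀)
  have hcard' : (F k).card = r := by
    rw [hF]
    have h1 : (↑hfin.toFinset : Set ℕ).encard = (r : ℕ∞) := by rw [hfin.coe_toFinset, hc]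
    rw [Set.encard_coe_eq_coe_finsetCard] at h1
    exact_mod_cast h1
  have hsub : (↑(F k) : Set ℕ) ⊆ Ak r g k := by
    rw [hF, hfin.coe_toFinset]
    intro x hx
    refine mem_Ak_of_le r g k x (hSA (hS' hx)) ?_
    have h1 := hK hx
    have h2 := le_M r g k
    have h3 := le_max_left K N₀
    omega
  have hsel : sel r (Ak r g k) k = F k := if_pos ⟨hcard', hsub⟩
  refine ⟨M r g (k + 1), ?_, ?_⟩
  · have h2 := le_M r g (k + 1)
    have h3 := le_max_right K N₀
    omega
  · apply special_no_rep r g k S
    rw [hsel, hF, hfin.coe_toFinset]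
    exact hS'

/-- **Theorem.** For all integers `h ≥ 2` and `r ≥ 1` there is an `r`-minimal asymptotic basis of
order `h`.  In particular this holds for all `h ≥ 3` and `r ≥ 2`. -/
theorem result : ∀ h r : ℕ, 2 ≤ h → 1 ≤ r → ∃ A : Set ℕ, IsRMinimal r h A := by
  intro h r hh _
  obtain ⟨g, rfl⟩ := Nat.exists_eq_add_of_le' hh
  refine ⟨A r g, fun S hS => ?_⟩
  constructor
  · intro hb
    by_contra hcon
    rw [not_lt] at hcon
    obtain ⟨K, hK⟩ := hb.bddAbove
    obtain ⟨N, hN, hnot⟩ := removal_large r g S hS hcon (K + 1)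
    have : N ≤ K := hK (by
      show ¬ InSumset (A r g \ S) (g + 2) N
      rwa [inSumset_iff])
    omega
  · intro hcard
    obtain ⟨N₀, hN₀⟩ := removal_small r g S hcard
    refine (Set.finite_lt_nat N₀).subset ?_
    intro N hN
    by_contra hcon
    apply hN
    rw [inSumset_iff]
    exact hN₀ N (not_lt.1 hcon)

end Pool.Agent.Results.MP_f804be_nt.RMinimalBases
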